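import Mathlib
import Pool.Agent.W526.LL.Stm

/-! LL-C3: Steinberg vectors, admissibility (part 3 of `S_C`). -/

namespace Pool.Agent.W830.LLC3

open Pool.Agent.W526.LL WithZero

section

variable {F : Type} [Field F] [Valued F ℤᵐ⁰] (D : LD F)

lemma w_mul_w : D.w * D.w = D.z := by
  apply ext4 <;> simp [LD.w, LD.al, LD.z, mul_ij, dg, ws, sc]

lemma z_comm (g : GL (Fin 2) F) : D.z * g = g * D.z := sc_comm _ _ g

lemma zpow_comm (j : ℤ) (g : GL (Fin 2) F) : D.z ^ j * g = g * D.z ^ j :=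
  (Commute.zpow_left (z_comm D g) j).eq

lemma al_pow (m : ℕ) : D.al ^ m = dg (D.ϖ ^ m) (pow_ne_zero m D.ne) := by
  induction m with
  | zero =>
    rw [pow_zero]
    have : dg (D.ϖ ^ 0) (pow_ne_zero 0 D.ne) = dg (1 : F) one_ne_zero := by
      congr 1; exact pow_zero _
    rw [this, dg_one]
  | succ m ih =>
    rw [pow_succ, ih, LD.al, dg_mul]
    congr 1
    rw [pow_succ]

lemma v_pow (m : ℕ) : Valued.v (D.ϖ ^ m) = exp (-(m : ℤ)) := by
  rw [map_pow, D.hϖ, ← exp_nsmul]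
  congr 1
  simp

variable {V : Type} [AddCommGroup V] [Module ℂ V] {ρ : Representation ℂ (GL (Fin 2) F) V} {y : V}

lemma act_mul (g h : GL (Fin 2) F) (v : V) : ρ (g * h) v = ρ g (ρ h v) := by
  rw [map_mul]; rfl

variable {D}

lemma z_fix (hy : IsSt D ρ y) : ρ D.z y = y := by
  rw [← w_mul_w, act_mul, hy.w, map_neg, hy.w, neg_neg]

lemma zpow_fix (hy : IsSt D ρ y) (j : ℤ) : ρ (D.z ^ j) y = y := by
  have h1 : ρ (D.z⁻¹) y = y := by
    conv_lhs => rw [← z_fix hy]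
    rw [← act_mul, inv_mul_cancel, map_one]; rfl
  have h2 : ∀ (a : GL (Fin 2) F), ρ a y = y → ∀ n : ℕ, ρ (a ^ n) y = y := by
    intro a ha n
    induction n with
    | zero => rw [pow_zero, map_one]; rfl
    | succ n ih => rw [pow_succ, act_mul, ha, ih]
  cases j with
  | ofNat n => exact h2 _ (z_fix hy) n
  | negSucc n =>
    rw [zpow_negSucc, ← inv_pow]
    exact h2 _ h1 (n + 1)

/-- the vectors `y_m` -/
noncomputable def yv (D : LD F) (ρ : Representation ℂ (GL (Fin 2) F) V) (y : V) (m : ℕ) : V :=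
  ρ (D.al ^ m) y

lemma decomp (hdec : S_dec) (hy : IsSt D ρ y) (g : GL (Fin 2) F) :
    ∃ k ∈ maxK F, ∃ m : ℕ, ρ g y = ρ k (yv D ρ y m) ∨ ρ g y = -ρ k (yv D ρ y m) := by
  obtain ⟨j, k, m, i, hk, hi, h | h⟩ := hdec F D g
  · refine ⟨k, hk, m, Or.inl ?_⟩
    rw [h, act_mul, hy.iw i hi, mul_assoc, zpow_comm, act_mul, zpow_fix hy, act_mul]
    rfl
  · refine ⟨k, hk, m, Or.inr ?_⟩
    rw [h, act_mul, hy.iw i hi, act_mul, hy.w, map_neg, mul_assoc, zpow_comm, act_mul,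
      zpow_fix hy, act_mul]
    rfl

lemma conj_mem_Iw (D : LD F) {m : ℕ} {u : GL (Fin 2) F} (hu : u ∈ Kn F (m + 1)) :
    (D.al ^ m)⁻¹ * u * D.al ^ m ∈ Iw F := by
  have h0 : D.ϖ ^ m ≠ 0 := pow_ne_zero m D.ne
  have hv := v_pow D m
  have hvi : Valued.v ((D.ϖ ^ m)⁻¹) = exp (m : ℤ) := by
    rw [map_inv₀, hv, ← exp_neg, neg_neg]
  have hle : Valued.v (D.ϖ ^ m) ≤ 1 := by
    rw [hv, ← exp_zero, exp_le_exp]; omega
  rw [al_pow]
  have hinv : (dg (D.ϖ ^ m) h0)⁻¹ = dg ((D.ϖ ^ m)⁻¹) (inv_ne_zero h0) := by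
    rw [inv_eq_iff_mul_eq_one, dg_mul]
    have : dg (D.ϖ ^ m * (D.ϖ ^ m)⁻¹) (mul_ne_zero h0 (inv_ne_zero h0)) = dg (1 : F) one_ne_zero := by
      congr 1; exact mul_inv_cancel₀ h0
    rw [this, dg_one]
  rw [hinv]
  set π := D.ϖ ^ m with hπ
  have e00 : (dg π⁻¹ (inv_ne_zero h0) * u * dg π h0) 0 0 = u 0 0 := by
    simp [mul_ij, dg]
  have e01 : (dg π⁻¹ (inv_ne_zero h0) * u * dg π h0) 0 1 = u 0 1 * π := by
    simp [mul_ij, dg]
  have e10 : (dg π⁻¹ (inv_ne_zero h0) * u * dg π h0) 1 0 = π⁻¹ * u 1 0 := by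
    simp [mul_ij, dg]
  have e11 : (dg π⁻¹ (inv_ne_zero h0) * u * dg π h0) 1 1 = u 1 1 := by
    simp only [mul_ij, dg, gl2_00, gl2_01, gl2_10, gl2_11]
    field_simp
    ring
  have hc : Valued.v (u 1 0) ≤ exp (-((m + 1 : ℕ) : ℤ)) := by
    have := hu.2 1 0
    rwa [one_10, sub_zero] at this
  have hlt : Valued.v (π⁻¹ * u 1 0) < 1 := by
    rw [map_mul, hvi]
    refine lt_of_le_of_lt (mul_le_mul_right hc _) ?_
    rw [← exp_add, ← exp_zero, exp_lt_exp]
    push_cast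
    omega
  refine ⟨⟨?_, ?_⟩, ?_⟩
  · intro i j
    fin_cases i <;> fin_cases j
    · show Valued.v ((dg π⁻¹ (inv_ne_zero h0) * u * dg π h0) 0 0) ≤ 1
      rw [e00]; exact hu.1.1 0 0
    · show Valued.v ((dg π⁻¹ (inv_ne_zero h0) * u * dg π h0) 0 1) ≤ 1
      rw [e01, map_mul]; exact mul_le_one' (hu.1.1 0 1) hle
    · show Valued.v ((dg π⁻¹ (inv_ne_zero h0) * u * dg π h0) 1 0) ≤ 1
      rw [e10]; exact hlt.le
    · show Valued.v ((dg π⁻¹ (inv_ne_zero h0) * u * dg π h0) 1 1) ≤ 1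
      rw [e11]; exact hu.1.1 1 1
  · have : dt (dg π⁻¹ (inv_ne_zero h0) * u * dg π h0) = dt u := by
      simp only [dt, e00, e01, e10, e11]
      field_simp
    rw [this]
    exact hu.1.2
  · rw [e10]; exact hlt

lemma fix_yv (hy : IsSt D ρ y) {m : ℕ} {u : GL (Fin 2) F} (hu : u ∈ Kn F (m + 1)) :
    ρ u (yv D ρ y m) = yv D ρ y m := by
  have h1 : u * D.al ^ m = D.al ^ m * ((D.al ^ m)⁻¹ * u * D.al ^ m) := by group
  rw [yv, ← act_mul, h1, act_mul, hy.iw _ (conj_mem_Iw D hu)]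

lemma fix_yv' (hy : IsSt D ρ y) {m N : ℕ} (hN : m + 1 ≤ N) {u : GL (Fin 2) F}
    (hu : u ∈ Kn F N) : ρ u (yv D ρ y m) = yv D ρ y m :=
  fix_yv hy (Kn_anti hN hu)

/-- the level relation -/
lemma level (hy : IsSt D ρ y) (m : ℕ) :
    yv D ρ y m = ∑ t ∈ D.T, ρ (lo (D.ϖ ^ (m + 1) * t)) (yv D ρ y (m + 1)) := by
  have h1 : ρ ws y = -ρ (D.al⁻¹) y := by
    have := hy.w
    rw [LD.w, act_mul] at this
    have h2 : ρ D.al⁻¹ (ρ D.al (ρ ws y)) = ρ D.al⁻¹ (-y) := by rw [this]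
    rw [← act_mul, inv_mul_cancel, map_one, map_neg] at h2
    exact h2
  have h3 : ρ D.al⁻¹ y = ∑ t ∈ D.T, ρ (lo t) y := by
    have := hy.har
    rw [h1] at this
    rw [← sub_eq_add_neg, sub_eq_zero] at this
    exact this.symm
  have h4 : yv D ρ y m = ρ (D.al ^ (m + 1)) (ρ D.al⁻¹ y) := by
    rw [yv, ← act_mul, pow_succ, mul_inv_cancel_right]
  rw [h4, h3, map_sum]
  refine Finset.sum_congr rfl fun t _ => ?_
  rw [yv, ← act_mul, ← act_mul, al_pow, dg_lo]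

/-- the vectors `ρ(k) y_m` with `k ∈ GL₂(O)`, `m ≤ n` -/
def gens (D : LD F) (ρ : Representation ℂ (GL (Fin 2) F) V) (y : V) (n : ℕ) : Set V :=
  {v | ∃ k ∈ maxK F, ∃ m ≤ n, v = ρ k (yv D ρ y m)}

lemma gens_finite (hquo : S_quo) (hy : IsSt D ρ y) (n : ℕ) : (gens D ρ y n).Finite := by
  have h1 : ∀ m : ℕ, {v | ∃ k ∈ maxK F, v = ρ k (yv D ρ y m)}.Finite := by
    intro m
    have hfin := hquo F D (m + 1) (maxK F) le_rfl
    refine Set.Finite.subset (Set.finite_range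
      (fun c : maxK F ⧸ (Kn F (m + 1)).subgroupOf (maxK F) =>
        ρ ((Quotient.out c : maxK F) : GL (Fin 2) F) (yv D ρ y m))) ?_
    rintro v ⟨k, hk, rfl⟩
    refine ⟨QuotientGroup.mk (⟨k, hk⟩ : maxK F), ?_⟩
    exact act_out (H := maxK F) (N := Kn F (m + 1)) (fun u hu => fix_yv hy hu) ⟨k, hk⟩
  refine Set.Finite.subset (Set.Finite.biUnion (Set.finite_Iic n) fun m _ => h1 m) ?_
  rintro v ⟨k, hk, m, hm, rfl⟩
  exact Set.mem_biUnion (show m ∈ Set.Iic n from hm) ⟨k, hk, rfl⟩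

lemma span_gens_act {n : ℕ} {k : GL (Fin 2) F} (hk : k ∈ maxK F) {v : V}
    (hv : v ∈ Submodule.span ℂ (gens D ρ y n)) : ρ k v ∈ Submodule.span ℂ (gens D ρ y n) := by
  induction hv using Submodule.span_induction with
  | mem v hv =>
    obtain ⟨k', hk', m, hm, rfl⟩ := hv
    refine Submodule.subset_span ⟨k * k', mul_mem hk hk', m, hm, ?_⟩
    rw [act_mul]
  | zero => rw [map_zero]; exact zero_mem _
  | add a b _ _ ha hb => rw [map_add]; exact add_mem ha hb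
  | smul c a _ ha => rw [map_smul]; exact Submodule.smul_mem _ _ ha

lemma avg_yv (hquo : S_quo) (hy : IsSt D ρ y) (n N : ℕ) :
    ∀ m : ℕ, m + 1 ≤ N →
      avg ρ (Kn F n) (Kn F N) (yv D ρ y m) ∈ Submodule.span ℂ (gens D ρ y n) := by
  have hfin : Finite (Kn F n ⧸ (Kn F N).subgroupOf (Kn F n)) := hquo F D N (Kn F n) (Kn_le n)
  intro m
  induction m with
  | zero =>
    intro _
    have := Fintype.ofFinite (Kn F n ⧸ (Kn F N).subgroupOf (Kn F n))
    rw [avg_apply]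
    refine Submodule.smul_mem _ _ (Submodule.sum_mem _ fun c _ => ?_)
    exact Submodule.subset_span ⟨_, Kn_le n (Quotient.out c : Kn F n).2, 0, Nat.zero_le _, rfl⟩
  | succ m ih =>
    intro hN
    by_cases hmn : m + 1 ≤ n
    · have := Fintype.ofFinite (Kn F n ⧸ (Kn F N).subgroupOf (Kn F n))
      rw [avg_apply]
      refine Submodule.smul_mem _ _ (Submodule.sum_mem _ fun c _ => ?_)
      exact Submodule.subset_span ⟨_, Kn_le n (Quotient.out c : Kn F n).2, m + 1, hmn, rfl⟩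
    · have ih' := ih (by omega)
      rw [level hy m, map_sum] at ih'
      have h1 : ∀ t ∈ D.T, avg ρ (Kn F n) (Kn F N)
          (ρ (lo (D.ϖ ^ (m + 1) * t)) (yv D ρ y (m + 1)))
          = avg ρ (Kn F n) (Kn F N) (yv D ρ y (m + 1)) := by
        intro t ht
        refine avg_act_right (fun u hu => fix_yv' hy hN hu)
          (fun h hh u hu => Kn_normal (Kn_le n hh) hu) ?_
        refine lo_mem_Kn ?_
        rw [map_mul, v_pow]
        refine (mul_le_mul' le_rfl (D.hT t ht)).trans ?_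
        rw [mul_one, exp_le_exp]
        push_cast
        omega
      rw [Finset.sum_congr rfl h1, Finset.sum_const, ← Nat.cast_smul_eq_nsmul ℂ] at ih'
      have hq : (D.T.card : ℂ) ≠ 0 := by
        have : D.T.card ≠ 0 := (Finset.card_pos.mpr ⟨0, D.hT0⟩).ne'
        exact_mod_cast this
      have := Submodule.smul_mem _ ((D.T.card : ℂ)⁻¹) ih'
      rwa [smul_smul, inv_mul_cancel₀ hq, one_smul] at this

/-- part (3) of `S_C` -/
theorem main (hdec : S_dec) (hquo : S_quo) :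
    ∀ (F : Type) [Field F] [Valued F ℤᵐ⁰] (D : LD F)
      (V : Type) [AddCommGroup V] [Module ℂ V] (ρ : Representation ℂ (GL (Fin 2) F) V) (y : V),
      IsSt D ρ y → ∀ S : Set (V →ₗ[ℂ] V), (∀ A ∈ S, ∀ g v, A (ρ g v) = ρ g (A v)) →
      (S.Finite → ∀ n : ℕ, ∃ P : Submodule ℂ V, FiniteDimensional ℂ P ∧
        ∀ x ∈ bigSpan ρ S y, (∀ k ∈ Kn F n, ρ k x = x) → x ∈ P) := by
  intro F _ _ D V _ _ ρ y hy S hS hfin n
  set P : Submodule ℂ V := Submodule.span ℂ (Set.image2 (fun (A : V →ₗ[ℂ] V) v => A v) S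
    (gens D ρ y n)) with hP
  refine ⟨P, ?_, ?_⟩
  · exact FiniteDimensional.span_of_finite ℂ (Set.Finite.image2 _ hfin (gens_finite hquo hy n))
  · have hAP : ∀ A ∈ S, ∀ v ∈ Submodule.span ℂ (gens D ρ y n), A v ∈ P := by
      intro A hA v hv
      induction hv using Submodule.span_induction with
      | mem v hv => exact Submodule.subset_span ⟨A, hA, v, hv, rfl⟩
      | zero => rw [map_zero]; exact zero_mem _
      | add a b _ _ ha hb => rw [map_add]; exact add_mem ha hb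
      | smul c a _ ha => rw [map_smul]; exact Submodule.smul_mem _ _ ha
    have key : ∀ x ∈ bigSpan ρ S y, ∃ N₀ : ℕ, ∀ N ≥ N₀, avg ρ (Kn F n) (Kn F N) x ∈ P := by
      intro x hx
      induction hx using Submodule.span_induction with
      | mem x hx =>
        obtain ⟨A, hA, g, rfl⟩ := hx
        obtain ⟨k, hk, m, hkm⟩ := decomp hdec hy g
        refine ⟨m + 1, fun N hN => ?_⟩
        have hfin' : Finite (Kn F n ⧸ (Kn F N).subgroupOf (Kn F n)) :=
          hquo F D N (Kn F n) (Kn_le n)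
        have h1 : avg ρ (Kn F n) (Kn F N) (A (ρ k (yv D ρ y m))) ∈ P := by
          rw [avg_comm (hS A hA)]
          refine hAP A hA _ ?_
          rw [avg_conj (fun u hu => fix_yv' hy hN hu) (fun h hh => Kn_normal hk hh)
            (fun h hh => Kn_normal' hk hh) (fun h hh => Kn_normal hk hh)
            (fun h hh => Kn_normal' hk hh)]
          exact span_gens_act hk (avg_yv hquo hy n N m hN)
        rcases hkm with h | h
        · rw [h]; exact h1
        · rw [h, map_neg, map_neg]; exact neg_mem h1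
      | zero => exact ⟨0, fun N _ => by rw [map_zero]; exact zero_mem _⟩
      | add a b _ _ ha hb =>
        obtain ⟨Na, hNa⟩ := ha
        obtain ⟨Nb, hNb⟩ := hb
        refine ⟨max Na Nb, fun N hN => ?_⟩
        rw [map_add]
        exact add_mem (hNa N (le_trans (le_max_left _ _) hN))
          (hNb N (le_trans (le_max_right _ _) hN))
      | smul c a _ ha =>
        obtain ⟨Na, hNa⟩ := ha
        refine ⟨Na, fun N hN => ?_⟩
        rw [map_smul]
        exact Submodule.smul_mem _ _ (hNa N hN)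
    intro x hx hfix
    obtain ⟨N₀, hN₀⟩ := key x hx
    have h1 := hN₀ N₀ le_rfl
    have hfin' : Finite (Kn F n ⧸ (Kn F N₀).subgroupOf (Kn F n)) :=
      hquo F D N₀ (Kn F n) (Kn_le n)
    rwa [avg_fix hfix] at h1

end

end Pool.Agent.W830.LLC3
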